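import Mathlib
import Pool.Agent.R29.Tutte

set_option autoImplicit false

/-!
# Outerplanarity is not determined by the Tutte polynomial (MP_f03b0a_co, Q1)

Two connected graphs with six vertices and ten edges (two pairs of parallel edges each) which have
the same Tutte polynomial; one is outerplanar, the other one contains a subdivision of `K_{2,3}`
and is not outerplanar.
-/

namespace Pool.Agent.Results.MP_f03b0a_co.Outerplanarity

open Finset

variable {V E : Type}

/-- The simple graph on `V` in which two different vertices are adjacent if some edge in `A` of the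
multigraph (given by the ends `ends e = (u, v)` of its edges `e`) joins them. -/
def under (ends : E → V × V) (A : Finset E) : SimpleGraph V :=
  SimpleGraph.fromRel fun u v => ∃ e ∈ A, ends e = (u, v)

/-- `k(A)`: the number of the connected components of the spanning subgraph `(V, A)`. -/
noncomputable def comps (ends : E → V × V) (A : Finset E) : ℕ :=
  Nat.card (under ends A).ConnectedComponent

/-- The rank `r(A) = |V| - k(A)`. -/
noncomputable def rank [Fintype V] (ends : E → V × V) (A : Finset E) : ℕ :=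
  Fintype.card V - comps ends A

/-- The Tutte polynomial `∑_A (x-1)^(r(E)-r(A)) (y-1)^(|A|-r(A))` with `x = X 0` and `y = X 1`. -/
noncomputable def tutte [Fintype V] [Fintype E] (ends : E → V × V) : MvPolynomial (Fin 2) ℤ :=
  ∑ A : Finset E, (MvPolynomial.X 0 - 1) ^ (rank ends univ - rank ends A) *
    (MvPolynomial.X 1 - 1) ^ (A.card - rank ends A)

/-- The multigraph is connected. -/
def IsConnected [Fintype E] (ends : E → V × V) : Prop := (under ends univ).Connected

/-- The multigraph is outerplanar, in the standard chord form: its vertices can be placed at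
distinct points of a circle (cut open to a line) in such a way that no two edges, drawn as chords
(parallel edges next to each other, loops close to their vertices), cross. -/
def IsOuterplanar [Fintype E] (ends : E → V × V) : Prop :=
  ∃ pos : V → ℕ, Function.Injective pos ∧
    ∀ a b c d : V, (under ends univ).Adj a b → (under ends univ).Adj c d →
      ¬ (pos a < pos c ∧ pos c < pos b ∧ pos b < pos d)

/-- The multigraph contains a subdivision of `K_{2,3}`: there are two different vertices `s`, `t`
and three paths from `s` to `t`, each of length at least two, which have in pairs no common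
vertices except `s` and `t`. -/
def HasK23 [Fintype E] (ends : E → V × V) : Prop :=
  ∃ s t : V, s ≠ t ∧ ∃ p : Fin 3 → (under ends univ).Path s t,
    (∀ i, 2 ≤ (p i).1.length) ∧
      ∀ i j, i ≠ j → ∀ v, v ∈ (p i).1.support → v ∈ (p j).1.support → v = s ∨ v = t

/-- the outerplanar graph -/
def G : Fin 10 → Fin 6 × Fin 6 :=
  ![(0,1),(0,2),(0,2),(0,3),(2,4),(2,5),(3,2),(4,1),(4,1),(5,4)]

/-- the graph with a subdivision of `K_{2,3}` -/
def H : Fin 10 → Fin 6 × Fin 6 :=
  ![(0,1),(0,2),(0,3),(0,3),(0,4),(2,5),(2,5),(3,2),(4,2),(5,1)]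

theorem tutte_G_H : tutte G = tutte H := by
  have h : Pool.Agent.R29.tutte G = Pool.Agent.R29.tutte H := by
    apply Pool.Agent.R29.tutte_eq_of_poly (by norm_num) (by norm_num)
    decide +kernel
  exact h

theorem adj_iff (ends : E → V × V) (A : Finset E) (u v : V) :
    (under ends A).Adj u v ↔ u ≠ v ∧ ∃ e ∈ A, ends e = (u, v) ∨ ends e = (v, u) :=
  Pool.Agent.R29.under_adj ends A u v

/-- connectivity from edges leaving all sets of vertices -/
theorem connected_of_cuts {W : Type} (K : SimpleGraph W) (w : W)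
    (h : ∀ T : Set W, w ∈ T → T ≠ Set.univ → ∃ a ∈ T, ∃ b ∉ T, K.Adj a b) : K.Connected := by
  rw [SimpleGraph.connected_iff_exists_forall_reachable]
  refine ⟨w, ?_⟩
  by_contra hcon
  push Not at hcon
  obtain ⟨x, hx⟩ := hcon
  obtain ⟨a, ha, b, hb, hab⟩ := h {x | K.Reachable w x} (SimpleGraph.Reachable.refl w)
    (fun hT => hx (by
      have : x ∈ {x | K.Reachable w x} := by rw [hT]; trivial
      exact this))
  exact hb (SimpleGraph.Reachable.trans ha hab.reachable)

theorem connected_of_edges {V E : Type} [Fintype V] [Fintype E] {ends : E → V × V}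
    (h : ∀ T : Finset V, T.Nonempty → T ≠ univ → ∃ e, ((ends e).1 ∈ T ∧ (ends e).2 ∉ T) ∨
      ((ends e).2 ∈ T ∧ (ends e).1 ∉ T)) (v : V) : IsConnected ends := by
  classical
  refine connected_of_cuts _ v ?_
  intro T hv hT
  obtain ⟨e, he⟩ := h (univ.filter fun x => x ∈ T) ⟨v, by simpa using hv⟩ (fun hcon => hT (by
    ext x
    have : x ∈ (univ.filter fun x => x ∈ T) := by rw [hcon]; exact mem_univ _
    simpa using this))
  simp only [mem_filter, mem_univ, true_and] at he
  rcases he with ⟨h1, h2⟩ | ⟨h1, h2⟩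
  · exact ⟨_, h1, _, h2, (adj_iff ends univ _ _).mpr
      ⟨fun hc => h2 (hc ▸ h1), e, mem_univ _, Or.inl rfl⟩⟩
  · exact ⟨_, h1, _, h2, (adj_iff ends univ _ _).mpr
      ⟨fun hc => h2 (hc ▸ h1), e, mem_univ _, Or.inr rfl⟩⟩

theorem connected_G : IsConnected G := by
  refine connected_of_edges ?_ 0
  decide +kernel

theorem connected_H : IsConnected H := by
  refine connected_of_edges ?_ 0
  decide +kernel

/-- the order of the vertices of `G` on the circle: `0, 1, 4, 5, 2, 3` -/
def posG : Fin 6 → ℕ := ![0, 1, 4, 5, 2, 3]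

theorem cross_G : ∀ a b c d : Fin 6, (∃ e, G e = (a, b) ∨ G e = (b, a)) →
    (∃ e, G e = (c, d) ∨ G e = (d, c)) →
      ¬ (posG a < posG c ∧ posG c < posG b ∧ posG b < posG d) := by
  decide +kernel

theorem outer_G : IsOuterplanar G := by
  refine ⟨posG, by decide, ?_⟩
  intro a b c d hab hcd
  rw [adj_iff] at hab hcd
  obtain ⟨-, e, -, he⟩ := hab
  obtain ⟨-, f, -, hf⟩ := hcd
  exact cross_G a b c d ⟨e, he⟩ ⟨f, hf⟩

/-- every circular order of the vertices of `H` has a crossing -/
theorem cross_H : ∀ σ : Equiv.Perm (Fin 6), ∃ e f : Fin 10,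
    (σ (H e).1 < σ (H f).1 ∧ σ (H f).1 < σ (H e).2 ∧ σ (H e).2 < σ (H f).2) ∨
    (σ (H e).2 < σ (H f).1 ∧ σ (H f).1 < σ (H e).1 ∧ σ (H e).1 < σ (H f).2) ∨
    (σ (H e).1 < σ (H f).2 ∧ σ (H f).2 < σ (H e).2 ∧ σ (H e).2 < σ (H f).1) ∨
    (σ (H e).2 < σ (H f).2 ∧ σ (H f).2 < σ (H e).1 ∧ σ (H e).1 < σ (H f).1) := by
  decide +kernel

theorem ne_H : ∀ e, (H e).1 ≠ (H e).2 := by decide

theorem not_outer_H : ¬ IsOuterplanar H := by
  classical
  rintro ⟨pos, hinj, hcr⟩
  -- the rank of a vertex in the order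
  let r : Fin 6 → Fin 6 := fun v => ⟨(univ.filter fun w => pos w < pos v).card, by
    have h : (univ.filter fun w => pos w < pos v) ⊂ univ := by
      rw [Finset.ssubset_univ_iff]
      intro hcon
      have : v ∈ (univ.filter fun w => pos w < pos v) := by rw [hcon]; exact mem_univ _
      simp at this
    simpa using Finset.card_lt_card h⟩
  have hr : ∀ u v, pos u < pos v → r u < r v := by
    intro u v huv
    change (univ.filter fun w => pos w < pos u).card < (univ.filter fun w => pos w < pos v).card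
    apply Finset.card_lt_card
    rw [Finset.ssubset_iff_of_subset]
    · exact ⟨u, by simpa using huv, by simp⟩
    · intro w hw
      simp only [mem_filter, mem_univ, true_and] at hw ⊢
      omega
  have hr' : ∀ u v, r u < r v → pos u < pos v := by
    intro u v huv
    by_contra hcon
    rcases Nat.lt_or_ge (pos v) (pos u) with h | h
    · exact absurd (hr v u h) (by
        intro h2
        exact absurd (lt_trans huv h2) (lt_irrefl _))
    · have : u = v := hinj (by omega)
      rw [this] at huv
      exact absurd huv (lt_irrefl _)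
  have hrinj : Function.Injective r := by
    intro u v huv
    by_contra hne
    rcases Nat.lt_trichotomy (pos u) (pos v) with h | h | h
    · exact absurd (hr u v h) (by rw [huv]; exact lt_irrefl _)
    · exact hne (hinj h)
    · exact absurd (hr v u h) (by rw [huv]; exact lt_irrefl _)
  have hbij : Function.Bijective r := Finite.injective_iff_bijective.mp hrinj
  obtain ⟨e, f, h⟩ := cross_H (Equiv.ofBijective r hbij)
  simp only [Equiv.ofBijective_apply] at h
  have e1 : (under H univ).Adj (H e).1 (H e).2 :=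
    (adj_iff H univ _ _).mpr ⟨ne_H e, e, mem_univ _, Or.inl rfl⟩
  have f1 : (under H univ).Adj (H f).1 (H f).2 :=
    (adj_iff H univ _ _).mpr ⟨ne_H f, f, mem_univ _, Or.inl rfl⟩
  rcases h with ⟨h1, h2, h3⟩ | ⟨h1, h2, h3⟩ | ⟨h1, h2, h3⟩ | ⟨h1, h2, h3⟩
  · exact hcr _ _ _ _ e1 f1 ⟨hr' _ _ h1, hr' _ _ h2, hr' _ _ h3⟩
  · exact hcr _ _ _ _ e1.symm f1 ⟨hr' _ _ h1, hr' _ _ h2, hr' _ _ h3⟩
  · exact hcr _ _ _ _ e1 f1.symm ⟨hr' _ _ h1, hr' _ _ h2, hr' _ _ h3⟩
  · exact hcr _ _ _ _ e1.symm f1.symm ⟨hr' _ _ h1, hr' _ _ h2, hr' _ _ h3⟩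

theorem adj_H (u v : Fin 6) (h : u ≠ v ∧ ∃ e, H e = (u, v) ∨ H e = (v, u)) :
    (under H univ).Adj u v := by
  obtain ⟨h1, e, h2⟩ := h
  exact (adj_iff H univ _ _).mpr ⟨h1, e, mem_univ _, h2⟩

/-- the path `0, 3, 2` -/
def w1 : (under H univ).Walk 0 2 :=
  .cons (adj_H 0 3 (by decide)) (.cons (adj_H 3 2 (by decide)) .nil)

/-- the path `0, 4, 2` -/
def w2 : (under H univ).Walk 0 2 :=
  .cons (adj_H 0 4 (by decide)) (.cons (adj_H 4 2 (by decide)) .nil)

/-- the path `0, 1, 5, 2` -/
def w3 : (under H univ).Walk 0 2 :=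
  .cons (adj_H 0 1 (by decide)) (.cons (adj_H 1 5 (by decide)) (.cons (adj_H 5 2 (by decide)) .nil))

theorem s1 : w1.support = [0, 3, 2] := rfl

theorem s2 : w2.support = [0, 4, 2] := rfl

theorem s3 : w3.support = [0, 1, 5, 2] := rfl

theorem p1 : w1.IsPath := by
  rw [SimpleGraph.Walk.isPath_def, s1]; decide

theorem p2 : w2.IsPath := by
  rw [SimpleGraph.Walk.isPath_def, s2]; decide

theorem p3 : w3.IsPath := by
  rw [SimpleGraph.Walk.isPath_def, s3]; decide

theorem k23_H : HasK23 H := by
  refine ⟨0, 2, by decide, ![⟨w1, p1⟩, ⟨w2, p2⟩, ⟨w3, p3⟩], ?_, ?_⟩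
  · intro i
    fin_cases i
    · exact le_refl 2
    · exact le_refl 2
    · exact Nat.le_succ 2
  · have key : ∀ i j : Fin 3, i ≠ j → ∀ v : Fin 6,
        v ∈ (![[0, 3, 2], [0, 4, 2], [0, 1, 5, 2]] : Fin 3 → List (Fin 6)) i →
        v ∈ (![[0, 3, 2], [0, 4, 2], [0, 1, 5, 2]] : Fin 3 → List (Fin 6)) j →
        v = 0 ∨ v = 2 := by decide
    have hs : ∀ i : Fin 3, ((![⟨w1, p1⟩, ⟨w2, p2⟩, ⟨w3, p3⟩] :
        Fin 3 → (under H univ).Path 0 2) i).1.support =
        (![[0, 3, 2], [0, 4, 2], [0, 1, 5, 2]] : Fin 3 → List (Fin 6)) i := by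
      intro i
      fin_cases i <;> rfl
    intro i j hij v hi hj
    rw [hs] at hi hj
    exact key i j hij v hi hj

/-- There are two connected graphs (with parallel edges) with the same Tutte polynomial one of
which is outerplanar while the other one contains a subdivision of `K_{2,3}` and is not
outerplanar. -/
theorem result : ∃ (n m : ℕ) (G H : Fin m → Fin n × Fin n), IsConnected G ∧ IsConnected H ∧
    tutte G = tutte H ∧ IsOuterplanar G ∧ HasK23 H ∧ ¬ IsOuterplanar H :=
  ⟨6, 10, G, H, connected_G, connected_H, tutte_G_H, outer_G, k23_H, not_outer_H⟩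

end Pool.Agent.Results.MP_f03b0a_co.Outerplanarity
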